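import Pool.Agent.H52.SP.Word

/-!
# Universal words from covering systems

The alphabet consists of `m = p + 1` ordinary letters, `T` stars and `Z` moving letters.  In every
row (`p` columns) each star stands in its own column; moving letter `r` jumps from row to row
through the breakpoints `a r, a r + M r, …, a r + K r * M r` (a breakpoint is a gap between two
stars) and starts again from the first one in the row in which it reaches the last one.
If for every choice of one jump for each moving letter some star is jumped over by `L` moving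
letters, then the greedy embedding of a permutation uses at most `n - L - 1` rows and the cluster
of one more row.
-/

namespace Pool.Agent.H52.SP

open Finset

/-- the parameters of the construction -/
structure Sys where
  B : ℕ
  T : ℕ
  Z : ℕ
  a : ℕ → ℕ
  K : ℕ → ℕ
  M : ℕ → ℕ

namespace Sys

variable (S : Sys)

/-- the width of the cluster -/
def Q : ℕ := (S.Z + 1) * (S.T + 1)

/-- the number of columns of a row -/
def p : ℕ := S.B + S.Q

/-- the number of ordinary letters -/
def m : ℕ := S.p + 1

/-- the size of the alphabet -/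
def n : ℕ := S.m + S.T + S.Z

/-- location of the moving letter `r` in the gap `b`, and of the star `b` if `r = Z` -/
def lam (b r : ℕ) : ℕ := S.B + ((S.Z + 1) * b + r)

/-- the moving letter `r` occurs in row `i` in the gap `b` -/
def Occ (r i b : ℕ) : Prop :=
  b = S.a r + (i % S.K r) * S.M r ∨ (i % S.K r = 0 ∧ b = S.a r + S.K r * S.M r)

instance (r i b : ℕ) : Decidable (S.Occ r i b) := by unfold Occ; infer_instance

/-- token in row `i` at the location `B + o` -/
def tokLoc (i o : ℕ) : ℕ :=
  if o % (S.Z + 1) = S.Z then (if o / (S.Z + 1) < S.T then S.m + o / (S.Z + 1) else S.n)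
  else (if S.Occ (o % (S.Z + 1)) i (o / (S.Z + 1)) then S.m + S.T + o % (S.Z + 1) else S.n)

/-- token in column `X` -/
def tok (X : ℕ) : ℕ :=
  if X = 0 then S.n
  else if S.B + ((X - 1) % S.p + 1) ≤ S.p then
    S.tokLoc ((X - 1) / S.p) (S.p - ((X - 1) % S.p + 1) - S.B)
  else S.n

/-- the letter in slot `s` -/
def code (s : ℕ) : ℕ := if s % 2 = 1 then (s / 2) % S.m else S.tok (s / 2)

theorem code_odd (t : ℕ) : S.code (2 * t + 1) = t % S.m := by
  unfold code
  rw [if_pos (by omega)]
  congr 1
  omega

theorem code_even (X : ℕ) : S.code (2 * X) = S.tok X := by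
  unfold code
  rw [if_neg (by omega)]
  congr 1
  omega

theorem Q_pos : 0 < S.Q := Nat.mul_pos (by omega) (by omega)

theorem p_pos : 0 < S.p := by have := S.Q_pos; unfold p; omega

theorem lam_lt {b r : ℕ} (hb : b ≤ S.T) (hr : r ≤ S.Z) : S.lam b r < S.p := by
  unfold lam p Q
  have h1 : (S.Z + 1) * b ≤ (S.Z + 1) * S.T := Nat.mul_le_mul_left _ hb
  have h2 : (S.Z + 1) * (S.T + 1) = (S.Z + 1) * S.T + (S.Z + 1) := by ring
  omega

theorem B_le_lam (b r : ℕ) : S.B ≤ S.lam b r := Nat.le_add_right _ _

/-- the token at a location -/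
theorem code_loc (i b r : ℕ) (hb : b ≤ S.T) (hr : r ≤ S.Z) :
    S.code (2 * (i * S.p + (S.p - S.lam b r))) = S.tokLoc i ((S.Z + 1) * b + r) := by
  have hl := S.lam_lt hb hr
  have hp := S.p_pos
  have hB := S.B_le_lam b r
  rw [code_even]
  unfold tok
  rw [if_neg (by omega)]
  have h1 : i * S.p + (S.p - S.lam b r) - 1 = (S.p - S.lam b r - 1) + S.p * i := by
    rw [Nat.mul_comm i]; omega
  have h2 : (i * S.p + (S.p - S.lam b r) - 1) % S.p = S.p - S.lam b r - 1 := by
    rw [h1, Nat.add_mul_mod_self_left, Nat.mod_eq_of_lt (by omega)]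
  have h3 : (i * S.p + (S.p - S.lam b r) - 1) / S.p = i := by
    rw [h1, Nat.add_mul_div_left _ _ hp, Nat.div_eq_of_lt (by omega), Nat.zero_add]
  rw [h2, h3, if_pos (by omega)]
  congr 1
  unfold lam at *
  omega

theorem code_star (i t : ℕ) (ht : t < S.T) :
    S.code (2 * (i * S.p + (S.p - S.lam t S.Z))) = S.m + t := by
  rw [S.code_loc i t S.Z (by omega) le_rfl]
  unfold tokLoc
  have h1 : ((S.Z + 1) * t + S.Z) % (S.Z + 1) = S.Z := by
    rw [Nat.mul_add_mod, Nat.mod_eq_of_lt (by omega)]
  have h2 : ((S.Z + 1) * t + S.Z) / (S.Z + 1) = t := by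
    rw [Nat.mul_add_div (by omega), Nat.div_eq_of_lt (by omega), Nat.add_zero]
  rw [h1, h2, if_pos rfl, if_pos ht]

theorem code_mov (i b r : ℕ) (hb : b ≤ S.T) (hr : r < S.Z) (ho : S.Occ r i b) :
    S.code (2 * (i * S.p + (S.p - S.lam b r))) = S.m + S.T + r := by
  rw [S.code_loc i b r hb (by omega)]
  unfold tokLoc
  have h1 : ((S.Z + 1) * b + r) % (S.Z + 1) = r := by
    rw [Nat.mul_add_mod, Nat.mod_eq_of_lt (by omega)]
  have h2 : ((S.Z + 1) * b + r) / (S.Z + 1) = b := by
    rw [Nat.mul_add_div (by omega), Nat.div_eq_of_lt (by omega), Nat.add_zero]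
  rw [h1, h2, if_neg (by omega), if_pos ho]

/-- the arc `(u, w)` of the moving letter `r` is of type `j`: a jump from breakpoint `j` to
breakpoint `j + 1` if `j < K r`, the return to the first breakpoint if `j = K r`. -/
def Arc (r j u w : ℕ) : Prop :=
  (j < S.K r ∧ ∃ k, u = k * S.p + S.lam (S.a r + j * S.M r) r ∧
    w = k * S.p + S.lam (S.a r + (j + 1) * S.M r) r) ∨
  (j = S.K r ∧ ∃ k, u = k * S.p + S.lam (S.a r + S.K r * S.M r) r ∧
    w = (k + 1) * S.p + S.lam (S.a r) r)

/-- the assumptions on the parameters -/
structure Ok : Prop where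
  K_pos : ∀ r < S.Z, 1 ≤ S.K r
  end_le : ∀ r < S.Z, S.a r + S.K r * S.M r ≤ S.T

variable {S}

theorem Ok.bp_le (h : S.Ok) {r j : ℕ} (hr : r < S.Z) (hj : j ≤ S.K r) :
    S.a r + j * S.M r ≤ S.T :=
  (Nat.add_le_add_left (Nat.mul_le_mul_right _ hj) _).trans (h.end_le r hr)

/-- row and column of a position -/
theorem exists_row (S : Sys) {X : ℕ} (hX : 1 ≤ X) :
    ∃ i q, X = i * S.p + q ∧ 1 ≤ q ∧ q ≤ S.p := by
  refine ⟨(X - 1) / S.p, (X - 1) % S.p + 1, ?_, by omega, Nat.mod_lt _ S.p_pos⟩
  have := Nat.div_add_mod (X - 1) S.p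
  rw [Nat.mul_comm] at this
  omega

/-- using a star -/
theorem step_star {X d len t : ℕ} (hX : 1 ≤ X) (hd : X + d = S.p * len + 1) (ht : t < S.T) :
    ∃ Y k, X ≤ Y ∧ S.code (2 * Y) = S.m + t ∧
      (Y + 1) + (k * S.p + S.lam t S.Z) = S.p * (len + 1) + 1 ∧ d ≤ k * S.p + S.lam t S.Z := by
  obtain ⟨i, q, hXe, hq1, hq2⟩ := exists_row S hX
  have hl := S.lam_lt (b := t) (r := S.Z) (by omega) le_rfl
  have hp := S.p_pos
  have hi : i ≤ len := by
    by_contra hc
    have h1 : len + 1 ≤ i := by omega
    have h2 : (len + 1) * S.p ≤ i * S.p := Nat.mul_le_mul_right _ h1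
    have h3 : (len + 1) * S.p = S.p * len + S.p := by ring
    omega
  obtain ⟨k, hk⟩ := Nat.exists_eq_add_of_le hi
  by_cases h : q + S.lam t S.Z ≤ S.p
  · refine ⟨i * S.p + (S.p - S.lam t S.Z), k, by omega, S.code_star i t ht, ?_, ?_⟩
    · have e1 : S.p * (len + 1) = i * S.p + k * S.p + S.p := by rw [hk]; ring
      omega
    · have e2 : S.p * len = i * S.p + k * S.p := by rw [hk]; ring
      omega
  · have hk1 : 1 ≤ k := by
      by_contra hc
      have hk0 : k = 0 := by omega
      rw [hk0, Nat.add_zero] at hk
      have e2 : S.p * len = i * S.p := by rw [hk]; ring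
      omega
    obtain ⟨k', rfl⟩ := Nat.exists_eq_add_of_le hk1
    refine ⟨(i + 1) * S.p + (S.p - S.lam t S.Z), k', ?_, S.code_star (i + 1) t ht, ?_, ?_⟩
    · have e3 : (i + 1) * S.p = i * S.p + S.p := by ring
      omega
    · have e3 : (i + 1) * S.p = i * S.p + S.p := by ring
      have e1 : S.p * (len + 1) = i * S.p + k' * S.p + S.p + S.p := by rw [hk]; ring
      omega
    · have e2 : S.p * len = i * S.p + k' * S.p + S.p := by rw [hk]; ring
      omega

/-- using a moving letter -/
theorem step_mov (hS : S.Ok) {X d len r : ℕ} (hX : 1 ≤ X) (hd : X + d = S.p * len + 1)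
    (hr : r < S.Z) :
    ∃ Y j u w, X ≤ Y ∧ S.code (2 * Y) = S.m + S.T + r ∧
      (Y + 1) + w = S.p * (len + 1) + 1 ∧ j ≤ S.K r ∧ S.Arc r j u w ∧ d ≤ u ∧ d ≤ w := by
  obtain ⟨i, q, hXe, hq1, hq2⟩ := exists_row S hX
  have hp := S.p_pos
  have hK := hS.K_pos r hr
  have hi : i ≤ len := by
    by_contra hc
    have h1 : len + 1 ≤ i := by omega
    have h2 : (len + 1) * S.p ≤ i * S.p := Nat.mul_le_mul_right _ h1
    have h3 : (len + 1) * S.p = S.p * len + S.p := by ring
    omega
  obtain ⟨k, hk⟩ := Nat.exists_eq_add_of_le hi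
  have e2 : S.p * len = i * S.p + k * S.p := by rw [hk]; ring
  have e1 : S.p * (len + 1) = i * S.p + k * S.p + S.p := by rw [hk]; ring
  have hlam : ∀ j, j ≤ S.K r → S.lam (S.a r + j * S.M r) r < S.p :=
    fun j hj => S.lam_lt (hS.bp_le hr hj) (by omega)
  have hj0 : i % S.K r < S.K r := Nat.mod_lt _ hK
  set j0 := i % S.K r with hj0def
  by_cases h : q + S.lam (S.a r + j0 * S.M r) r ≤ S.p
  · rcases Nat.eq_zero_or_pos j0 with hz | hz
    · by_cases h' : q + S.lam (S.a r + S.K r * S.M r) r ≤ S.p
      · -- jump to the last breakpoint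
        have hl1 := hlam (S.K r) le_rfl
        refine ⟨i * S.p + (S.p - S.lam (S.a r + S.K r * S.M r) r), S.K r - 1,
          k * S.p + S.lam (S.a r + (S.K r - 1) * S.M r) r,
          k * S.p + S.lam (S.a r + S.K r * S.M r) r, by omega,
          S.code_mov i _ r (hS.bp_le hr le_rfl) hr (Or.inr ⟨by omega, rfl⟩), by omega, by omega,
          Or.inl ⟨by omega, k, rfl, ?_⟩, by omega, by omega⟩
        have e5 : S.K r - 1 + 1 = S.K r := by omega
        rw [e5]
      · -- the return
        have hl1 := hlam (S.K r) le_rfl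
        have hl0 := hlam 0 (by omega)
        rw [Nat.zero_mul, Nat.add_zero] at hl0
        have hk1 : 1 ≤ k := by
          by_contra hc
          have hk0 : k = 0 := by omega
          rw [hk0] at e2
          omega
        obtain ⟨k', rfl⟩ := Nat.exists_eq_add_of_le hk1
        have e6 : (1 + k') * S.p = k' * S.p + S.p := by ring
        have e7 : (k' + 1) * S.p = k' * S.p + S.p := by ring
        rw [hz, Nat.zero_mul, Nat.add_zero] at h
        refine ⟨i * S.p + (S.p - S.lam (S.a r) r), S.K r,
          k' * S.p + S.lam (S.a r + S.K r * S.M r) r,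
          (k' + 1) * S.p + S.lam (S.a r) r, by omega,
          S.code_mov i _ r (by have := hS.bp_le hr (Nat.zero_le (S.K r)); omega) hr
            (Or.inl (by rw [← hj0def, hz]; omega)), by omega, le_rfl,
          Or.inr ⟨rfl, k', rfl, rfl⟩, by omega, by omega⟩
    · -- jump to breakpoint `j0`
      have hl1 := hlam j0 (by omega)
      refine ⟨i * S.p + (S.p - S.lam (S.a r + j0 * S.M r) r), j0 - 1,
        k * S.p + S.lam (S.a r + (j0 - 1) * S.M r) r,
        k * S.p + S.lam (S.a r + j0 * S.M r) r, by omega,
        S.code_mov i _ r (hS.bp_le hr (by omega)) hr (Or.inl rfl), by omega, by omega,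
        Or.inl ⟨by omega, k, rfl, ?_⟩, by omega, by omega⟩
      have e5 : j0 - 1 + 1 = j0 := by omega
      rw [e5]
  · -- jump to the next row
    have hl1 := hlam j0 (by omega)
    have hl2 := hlam (j0 + 1) (by omega)
    have hk1 : 1 ≤ k := by
      by_contra hc
      have hk0 : k = 0 := by omega
      rw [hk0] at e2
      omega
    obtain ⟨k', rfl⟩ := Nat.exists_eq_add_of_le hk1
    have e6 : (1 + k') * S.p = k' * S.p + S.p := by ring
    have e3 : (i + 1) * S.p = i * S.p + S.p := by ring
    have hocc : S.Occ r (i + 1) (S.a r + (j0 + 1) * S.M r) := by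
      unfold Occ
      by_cases hjK : j0 + 1 = S.K r
      · right
        constructor
        · have h4 := Nat.div_add_mod i (S.K r)
          rw [← hj0def] at h4
          have h5 : i + 1 = S.K r * (i / S.K r + 1) := by
            rw [Nat.mul_add, Nat.mul_one]; omega
          rw [h5, Nat.mul_mod_right]
        · rw [hjK]
      · left
        have h4 := Nat.div_add_mod i (S.K r)
        rw [← hj0def] at h4
        have h5 : i + 1 = (j0 + 1) + S.K r * (i / S.K r) := by omega
        rw [h5, Nat.add_mul_mod_self_left, Nat.mod_eq_of_lt (by omega)]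
    have hmono : S.lam (S.a r + j0 * S.M r) r ≤ S.lam (S.a r + (j0 + 1) * S.M r) r := by
      unfold lam
      have h6 : (S.Z + 1) * (S.a r + j0 * S.M r) ≤ (S.Z + 1) * (S.a r + (j0 + 1) * S.M r) :=
        Nat.mul_le_mul_left _ (Nat.add_le_add_left (Nat.mul_le_mul_right _ (by omega)) _)
      omega
    refine ⟨(i + 1) * S.p + (S.p - S.lam (S.a r + (j0 + 1) * S.M r) r), j0,
      k' * S.p + S.lam (S.a r + j0 * S.M r) r,
      k' * S.p + S.lam (S.a r + (j0 + 1) * S.M r) r, by omega,
      S.code_mov (i + 1) _ r (hS.bp_le hr (by omega)) hr hocc, by omega, by omega,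
      Or.inl ⟨by omega, k', rfl, rfl⟩, by omega, by omega⟩

/-- the letter with code `v` occurs in `l` -/
def In {n : ℕ} (l : List (Fin n)) (v : ℕ) : Prop := ∃ y ∈ l, y.val = v

theorem In.append_iff {n : ℕ} {l : List (Fin n)} {y : Fin n} {v : ℕ} :
    In (l ++ [y]) v ↔ In l v ∨ y.val = v := by
  unfold In
  constructor
  · rintro ⟨z, hz, hzv⟩
    rcases List.mem_append.1 hz with hz | hz
    · exact Or.inl ⟨z, hz, hzv⟩
    · rw [List.mem_singleton] at hz
      subst hz
      exact Or.inr hzv
  · rintro (⟨z, hz, hzv⟩ | h)
    · exact ⟨z, List.mem_append_left _ hz, hzv⟩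
    · exact ⟨y, by simp, h⟩

/-- the record of the stars collected and the arcs used -/
structure Rec (S : Sys) (l : List (Fin S.n)) (d : ℕ) (x j u w : ℕ → ℕ) : Prop where
  star : ∀ t < S.T, In l (S.m + t) → x t ≤ d ∧ ∃ k, x t = k * S.p + S.lam t S.Z
  mov : ∀ r < S.Z, In l (S.m + S.T + r) → w r ≤ d ∧ j r ≤ S.K r ∧ S.Arc r (j r) (u r) (w r)
  sm : ∀ t < S.T, ∀ r < S.Z, In l (S.m + t) → In l (S.m + S.T + r) → x t ≤ u r ∨ w r ≤ x t
  mm : ∀ r < S.Z, ∀ r' < S.Z, r ≠ r' → In l (S.m + S.T + r) → In l (S.m + S.T + r') →
    w r ≤ u r' ∨ w r' ≤ u r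

theorem main (hS : S.Ok) (l : List (Fin S.n)) (hl : l.Nodup) :
    ∃ X d x j u w, 1 ≤ X ∧ X + d = S.p * l.length + 1 ∧ Good S.m S.n S.code l X ∧
      Rec S l d x j u w := by
  have hp := S.p_pos
  have hn : S.n = S.m + S.T + S.Z := rfl
  induction l using List.reverseRecOn with
  | nil =>
    refine ⟨1, 0, fun _ => 0, fun _ => 0, fun _ => 0, fun _ => 0, le_rfl, by simp,
      good_nil _ _ _, ?_⟩
    have h0 : ∀ v, ¬ In ([] : List (Fin S.n)) v := by
      rintro v ⟨y, hy, _⟩
      simp at hy
    exact ⟨fun t _ h => absurd h (h0 _), fun t _ h => absurd h (h0 _),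
      fun t _ r _ h => absurd h (h0 _), fun t _ r _ _ h => absurd h (h0 _)⟩
  | append_singleton l y ih =>
    have hnd : l.Nodup := (List.nodup_append.1 hl).1
    have hyl : y ∉ l := by
      intro hx
      exact (List.nodup_append.1 hl).2.2 y hx y (by simp) rfl
    have hin : ∀ v, y.val = v → ¬ In l v := by
      rintro v hv ⟨z, hz, hzv⟩
      apply hyl
      have : z = y := Fin.ext (by omega)
      rw [← this]
      exact hz
    obtain ⟨X, d, x, j, u, w, hX, hd, hg, hrec⟩ := ih hnd
    have hlt := y.isLt
    have hlen : (l ++ [y]).length = l.length + 1 := by simp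
    rw [hlen]
    rcases Nat.lt_or_ge y.val S.m with hy | hy
    · -- an ordinary letter
      have hm : S.m - 1 = S.p := by unfold m; omega
      refine ⟨X + (S.m - 1), d, x, j, u, w, by omega, ?_, good_ordinary S.code_odd
        (by unfold m; omega) hg hy hyl, ?_⟩
      · have : S.p * (l.length + 1) = S.p * l.length + S.p := by ring
        omega
      · have hiff : ∀ v, S.m ≤ v → (In (l ++ [y]) v ↔ In l v) := by
          intro v hv
          rw [In.append_iff]
          constructor
          · rintro (h | h)
            · exact h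
            · omega
          · exact Or.inl
        refine ⟨fun t ht h => hrec.star t ht ((hiff _ (by omega)).1 h),
          fun t ht h => hrec.mov t ht ((hiff _ (by omega)).1 h),
          fun t ht r hr h h' => hrec.sm t ht r hr ((hiff _ (by omega)).1 h)
            ((hiff _ (by omega)).1 h'),
          fun t ht r hr hne h h' => hrec.mm t ht r hr hne ((hiff _ (by omega)).1 h)
            ((hiff _ (by omega)).1 h')⟩
    · rcases Nat.lt_or_ge y.val (S.m + S.T) with hy2 | hy2
      · -- a star
        obtain ⟨t0, ht0⟩ : ∃ t0, y.val = S.m + t0 := ⟨y.val - S.m, by omega⟩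
        have ht0T : t0 < S.T := by omega
        obtain ⟨Y, k, hXY, hcode, hYd, hdk⟩ := step_star hX hd ht0T
        refine ⟨Y + 1, k * S.p + S.lam t0 S.Z, Function.update x t0 (k * S.p + S.lam t0 S.Z),
          j, u, w, by omega, hYd, good_special hg (by rw [hcode, ht0]) hXY, ?_⟩
        have hmv : ∀ r, In (l ++ [y]) (S.m + S.T + r) ↔ In l (S.m + S.T + r) := by
          intro r
          rw [In.append_iff]
          constructor
          · rintro (h | h)
            · exact h
            · omega
          · exact Or.inl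
        refine ⟨?_, ?_, ?_, ?_⟩
        · intro t ht h
          by_cases htt : t = t0
          · subst htt
            rw [Function.update_self]
            exact ⟨le_rfl, k, rfl⟩
          · rw [Function.update_of_ne htt]
            have h' : In l (S.m + t) := by
              rcases In.append_iff.1 h with h | h
              · exact h
              · omega
            obtain ⟨h1, h2⟩ := hrec.star t ht h'
            exact ⟨h1.trans hdk, h2⟩
        · intro r hr h
          obtain ⟨h1, h2⟩ := hrec.mov r hr ((hmv r).1 h)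
          exact ⟨h1.trans hdk, h2⟩
        · intro t ht r hr h h'
          by_cases htt : t = t0
          · subst htt
            rw [Function.update_self]
            right
            exact (hrec.mov r hr ((hmv r).1 h')).1.trans hdk
          · rw [Function.update_of_ne htt]
            have h'' : In l (S.m + t) := by
              rcases In.append_iff.1 h with h | h
              · exact h
              · omega
            exact hrec.sm t ht r hr h'' ((hmv r).1 h')
        · intro r hr r' hr' hne h h'
          exact hrec.mm r hr r' hr' hne ((hmv r).1 h) ((hmv r').1 h')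
      · -- a moving letter
        obtain ⟨r0, hr0⟩ : ∃ r0, y.val = S.m + S.T + r0 := ⟨y.val - (S.m + S.T), by omega⟩
        have hr0Z : r0 < S.Z := by omega
        obtain ⟨Y, j0, u0, w0, hXY, hcode, hYd, hj0, harc, hdu, hdw⟩ := step_mov hS hX hd hr0Z
        refine ⟨Y + 1, w0, x, Function.update j r0 j0, Function.update u r0 u0,
          Function.update w r0 w0, by omega, hYd, good_special hg (by rw [hcode, hr0]) hXY, ?_⟩
        have hst : ∀ t, t < S.T → (In (l ++ [y]) (S.m + t) ↔ In l (S.m + t)) := by
          intro t ht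
          rw [In.append_iff]
          constructor
          · rintro (h | h)
            · exact h
            · omega
          · exact Or.inl
        have hmv : ∀ r, r ≠ r0 → In (l ++ [y]) (S.m + S.T + r) → In l (S.m + S.T + r) := by
          intro r hr h
          rcases In.append_iff.1 h with h | h
          · exact h
          · omega
        refine ⟨?_, ?_, ?_, ?_⟩
        · intro t ht h
          obtain ⟨h1, h2⟩ := hrec.star t ht ((hst t ht).1 h)
          exact ⟨h1.trans hdw, h2⟩
        · intro r hr h
          by_cases hrr : r = r0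
          · subst hrr
            rw [Function.update_self, Function.update_self, Function.update_self]
            exact ⟨le_rfl, hj0, harc⟩
          · rw [Function.update_of_ne hrr, Function.update_of_ne hrr, Function.update_of_ne hrr]
            obtain ⟨h1, h2⟩ := hrec.mov r hr (hmv r hrr h)
            exact ⟨h1.trans hdw, h2⟩
        · intro t ht r hr h h'
          by_cases hrr : r = r0
          · subst hrr
            rw [Function.update_self, Function.update_self]
            left
            exact (hrec.star t ht ((hst t ht).1 h)).1.trans hdu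
          · rw [Function.update_of_ne hrr, Function.update_of_ne hrr]
            exact hrec.sm t ht r hr ((hst t ht).1 h) (hmv r hrr h')
        · intro r hr r' hr' hne h h'
          by_cases hrr : r = r0
          · have hrr' : r' ≠ r0 := by
              intro hc
              exact hne (hrr.trans hc.symm)
            rw [hrr, Function.update_self, Function.update_self,
              Function.update_of_ne hrr', Function.update_of_ne hrr']
            right
            exact (hrec.mov r' hr' (hmv r' hrr' h')).1.trans hdu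
          · rw [Function.update_of_ne hrr, Function.update_of_ne hrr]
            by_cases hrr' : r' = r0
            · rw [hrr', Function.update_self, Function.update_self]
              left
              exact (hrec.mov r hr (hmv r hrr h)).1.trans hdu
            · rw [Function.update_of_ne hrr', Function.update_of_ne hrr']
              exact hrec.mm r hr r' hr' hne (hmv r hrr h) (hmv r' hrr' h')

end Sys

end Pool.Agent.H52.SP
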