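import Pool.Agent.H52.SP.Tree

/-!
# Numerical parameters
-/

namespace Pool.Agent.H52.SP

open Finset

/-- number of jumps of a letter of level `s` -/
def Kt (s : ℕ) : ℕ := 2 ^ (3 * 2 ^ s - 1)

theorem Kt_pos (s : ℕ) : 1 ≤ Kt s := Nat.one_le_two_pow

theorem Kt_zero : Kt 0 = 4 := by simp [Kt]

theorem two_Kt (s : ℕ) : 2 * Kt s = 2 ^ (3 * 2 ^ s) := by
  unfold Kt
  have h : 1 ≤ 2 ^ s := Nat.one_le_two_pow
  have e : 3 * 2 ^ s = (3 * 2 ^ s - 1) + 1 := by omega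
  conv_rhs => rw [e, pow_succ]
  ring

theorem N_eq (s : ℕ) : Tree.N Kt s * 2 ^ (s + 3) = 2 ^ (3 * 2 ^ s) := by
  induction s with
  | zero => simp [Tree.N]
  | succ s ih =>
    rw [Tree.N_succ]
    have e : 2 ^ (3 * 2 ^ (s + 1)) = 2 ^ (3 * 2 ^ s) * 2 ^ (3 * 2 ^ s) := by
      rw [← pow_add]
      congr 1
      ring
    rw [e]
    nth_rw 1 [← ih]
    rw [← two_Kt]
    ring

theorem Kt_eq (s : ℕ) : Kt s = 2 ^ (s + 2) * Tree.N Kt s := by
  have h1 := N_eq s
  rw [← two_Kt] at h1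
  have h2 : Tree.N Kt s * 2 ^ (s + 3) = 2 * (2 ^ (s + 2) * Tree.N Kt s) := by ring
  omega

theorem N_pos (s : ℕ) : 1 ≤ Tree.N Kt s := by
  unfold Tree.N
  exact Nat.one_le_iff_ne_zero.2 (Finset.prod_ne_zero_iff.2 (fun t _ => by
    have := Kt_pos t; omega))

theorem sum_N_le (l : ℕ) : ∑ s ∈ range (l + 1), Tree.N Kt s ≤ 2 * Tree.N Kt l := by
  induction l with
  | zero => simp [Tree.N]
  | succ l ih =>
    rw [sum_range_succ, Tree.N_succ]
    have h1 := N_pos l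
    have h2 := Kt_eq l
    have h3 : 4 ≤ Kt l := by
      rw [h2]
      have h4 : 4 ≤ 2 ^ (l + 2) := by
        have : 2 ^ 2 ≤ 2 ^ (l + 2) := Nat.pow_le_pow_right (by norm_num) (by omega)
        omega
      nlinarith
    nlinarith

theorem ext_le (B R l : ℕ) : (((Tree.sys Kt (l + 1) B).ext R : ℕ) : ℝ) ≤
    7 / 12 * R + ((Tree.nodes Kt (l + 1)).card : ℝ) := by
  rw [Tree.sys_ext, Tree.card_nodes]
  have key : ∀ l : ℕ, ((∑ s ∈ range (l + 1), Tree.N Kt s *
      ((R + (if s = 0 then Kt 0 - 1 else Kt s) - 1) /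
      (if s = 0 then Kt 0 - 1 else Kt s)) : ℕ) : ℝ) ≤
      (7 / 12 - 1 / 2 ^ (l + 2)) * R + ((∑ s ∈ range (l + 1), Tree.N Kt s : ℕ) : ℝ) := by
    intro l
    induction l with
    | zero =>
      rw [sum_range_one, sum_range_one, if_pos rfl, Kt_zero]
      have h1 : Tree.N Kt 0 = 1 := by simp [Tree.N]
      rw [h1, one_mul]
      have h2 : (((R + (4 - 1) - 1) / (4 - 1) : ℕ) : ℝ) ≤ ((R + 2 : ℕ) : ℝ) / 3 := by
        have := @Nat.cast_div_le ℝ _ _ _ (R + 2) 3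
        simpa using this
      push_cast at h2 ⊢
      have hR : (0 : ℝ) ≤ R := Nat.cast_nonneg _
      norm_num
      linarith
    | succ l ih =>
      rw [sum_range_succ, sum_range_succ _ (l + 1), if_neg (by omega : l + 1 ≠ 0)]
      rw [Nat.cast_add, Nat.cast_add]
      have hK : (0 : ℝ) < Kt (l + 1) := by exact_mod_cast Kt_pos (l + 1)
      have h1 : (((R + Kt (l + 1) - 1) / Kt (l + 1) : ℕ) : ℝ) ≤ (R : ℝ) / Kt (l + 1) + 1 := by
        have h2 := @Nat.cast_div_le ℝ _ _ _ (R + Kt (l + 1) - 1) (Kt (l + 1))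
        have h3 : ((R + Kt (l + 1) - 1 : ℕ) : ℝ) ≤ (R : ℝ) + Kt (l + 1) := by
          have : R + Kt (l + 1) - 1 ≤ R + Kt (l + 1) := Nat.sub_le _ _
          exact_mod_cast this
        refine h2.trans ?_
        rw [div_le_iff₀ hK, add_mul, div_mul_cancel₀ _ hK.ne', one_mul]
        exact h3
      have hKN : (Kt (l + 1) : ℝ) = 2 ^ (l + 1 + 2) * (Tree.N Kt (l + 1) : ℝ) := by
        exact_mod_cast Kt_eq (l + 1)
      have hN : (0 : ℝ) < Tree.N Kt (l + 1) := by exact_mod_cast N_pos (l + 1)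
      have h4 : ((Tree.N Kt (l + 1) * ((R + Kt (l + 1) - 1) / Kt (l + 1)) : ℕ) : ℝ) ≤
          1 / 2 ^ (l + 1 + 2) * R + (Tree.N Kt (l + 1) : ℝ) := by
        rw [Nat.cast_mul]
        refine (mul_le_mul_of_nonneg_left h1 hN.le).trans (le_of_eq ?_)
        rw [hKN]
        field_simp
      have h5 : (1 : ℝ) / 2 ^ (l + 2) = 2 * (1 / 2 ^ (l + 1 + 2)) := by
        field_simp
        ring
      have h6 : (7 / 12 - 1 / 2 ^ (l + 2)) * (R : ℝ) + 1 / 2 ^ (l + 1 + 2) * R =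
          (7 / 12 - 1 / 2 ^ (l + 1 + 2)) * (R : ℝ) := by
        rw [h5]; ring
      linarith
  refine (key l).trans ?_
  have hR : (0 : ℝ) ≤ R := Nat.cast_nonneg _
  have h1 : (0 : ℝ) ≤ 1 / 2 ^ (l + 2) * R := by positivity
  nlinarith

/-- the bound for `n ≥ 2 ^ (9 * 2 ^ l)` -/
theorem bound (l n : ℕ) (hn : 2 ^ (9 * 2 ^ l) ≤ n) :
    (minLength n : ℝ) ≤ (n : ℝ) ^ 2 - (l + 7 / 3) * n := by
  set X : ℕ := 2 ^ (3 * 2 ^ l) with hX
  have hX3 : X ^ 3 = 2 ^ (9 * 2 ^ l) := by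
    rw [hX, ← pow_mul]
    congr 1
    ring
  set T := Tree.N Kt (l + 1) with hT
  set Z := (Tree.nodes Kt (l + 1)).card with hZ
  have hl1 : l + 1 ≤ 2 ^ l := Nat.lt_two_pow_self
  have hX8 : 8 ^ (l + 1) ≤ X := by
    rw [hX, show (8 : ℕ) = 2 ^ 3 by norm_num, ← pow_mul]
    exact Nat.pow_le_pow_right (by norm_num) (Nat.mul_le_mul_left _ hl1)
  have hX8' : 8 ≤ X := by
    refine le_trans ?_ hX8
    calc 8 = 8 ^ 1 := by norm_num
      _ ≤ 8 ^ (l + 1) := Nat.pow_le_pow_right (by norm_num) (by omega)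
  have hlX : 2 * (l + 3) ≤ X := by
    refine le_trans ?_ hX8
    have h1 : l + 1 ≤ 2 ^ l := hl1
    have h2 : 8 ^ (l + 1) = 2 ^ l * 2 ^ l * 2 ^ l * 8 := by
      rw [pow_succ, show (8 : ℕ) ^ l = (2 ^ 3) ^ l by norm_num, ← pow_mul]
      have : 3 * l = l + l + l := by ring
      rw [this, pow_add, pow_add]
    have h3 : 1 ≤ 2 ^ l := Nat.one_le_two_pow
    nlinarith
  have hT16 : 16 * T ≤ X ^ 2 := by
    have h1 := N_eq (l + 1)
    have h2 : 2 ^ (3 * 2 ^ (l + 1)) = X ^ 2 := by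
      rw [hX, ← pow_mul]
      congr 1
      ring
    rw [h2] at h1
    rw [← h1, ← hT]
    have h3 : 16 ≤ 2 ^ (l + 1 + 3) := by
      calc 16 = 2 ^ 4 := by norm_num
        _ ≤ 2 ^ (l + 1 + 3) := Nat.pow_le_pow_right (by norm_num) (by omega)
    nlinarith
  have hZ4 : 4 * Z ≤ X := by
    have h1 := sum_N_le l
    rw [← Tree.card_nodes, ← hZ] at h1
    have h2 := N_eq l
    rw [← hX] at h2
    have h3 : 8 ≤ 2 ^ (l + 3) := by
      calc 8 = 2 ^ 3 := by norm_num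
        _ ≤ 2 ^ (l + 3) := Nat.pow_le_pow_right (by norm_num) (by omega)
    nlinarith
  -- the real versions
  have rX : (8 : ℝ) ≤ X := by exact_mod_cast hX8'
  have rT : 16 * (T : ℝ) ≤ (X : ℝ) ^ 2 := by exact_mod_cast hT16
  have rZ : 4 * (Z : ℝ) ≤ X := by exact_mod_cast hZ4
  have rl : 2 * ((l : ℝ) + 3) ≤ X := by exact_mod_cast hlX
  have rn : (X : ℝ) ^ 3 ≤ n := by
    have : X ^ 3 ≤ n := by rw [hX3]; exact hn
    exact_mod_cast this
  have rT0 : (0 : ℝ) ≤ T := Nat.cast_nonneg _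
  have rZ0 : (0 : ℝ) ≤ Z := Nat.cast_nonneg _
  have hprod : ((Z : ℝ) + 1) * (T + 1) ≤ (X / 4 + 1) * (X ^ 2 / 16 + 1) := by
    apply mul_le_mul (by linarith) (by linarith) (by linarith) (by linarith)
  have hsmall : ((l : ℝ) + 3) + T + 2 * Z + (Z + 1) * (T + 1) ≤ n / 12 := by
    have h1 : (X : ℝ) ^ 2 ≤ X ^ 3 / 8 := by nlinarith [sq_nonneg (X : ℝ)]
    have h2 : (X : ℝ) ≤ X ^ 3 / 64 := by nlinarith
    have h3 : (1 : ℝ) ≤ X ^ 3 / 512 := by nlinarith
    have h4 : ((X : ℝ) / 4 + 1) * (X ^ 2 / 16 + 1) = X ^ 3 / 64 + X ^ 2 / 16 + X / 4 + 1 := by ring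
    nlinarith
  -- the number of ordinary letters
  set B := n - ((Z + 1) * (T + 1) + 1 + T + Z) with hB
  have hBn : (Z + 1) * (T + 1) + 1 + T + Z ≤ n := by
    have : (((Z + 1) * (T + 1) + 1 + T + Z : ℕ) : ℝ) ≤ n := by
      push_cast
      have : (0 : ℝ) ≤ n := Nat.cast_nonneg _
      have h5 : (0 : ℝ) ≤ l := Nat.cast_nonneg _
      nlinarith
    exact_mod_cast this
  set S := Tree.sys Kt (l + 1) B with hS
  have hSn : S.n = n := by
    show B + (Z + 1) * (T + 1) + 1 + T + Z = n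
    omega
  have hok : S.Ok := Tree.sys_ok Kt_pos (by rw [Kt_zero]; norm_num) (by omega) B
  have hbl : S.Blocking (l + 1) :=
    Tree.sys_blocking Kt_pos (by rw [Kt_zero]; norm_num) (by omega) B
  have hLn : l + 1 + 1 ≤ S.n := by
    rw [hSn]
    have : (((l + 1 + 1 : ℕ)) : ℝ) ≤ n := by
      push_cast
      have h6 : (X : ℝ) ≤ X ^ 3 := by nlinarith
      linarith
    exact_mod_cast this
  have hmain := Sys.minLength_le hok hbl hLn
  have hext := ext_le B (S.n - (l + 1)) l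
  rw [hSn] at hmain hext
  have hQ : S.Q = (Z + 1) * (T + 1) := rfl
  have hST : S.T = T := rfl
  have hSZ : S.Z = Z := rfl
  rw [hQ, hST, hSZ] at hmain
  have hR : (((n - (l + 1) : ℕ)) : ℝ) ≤ n := by
    have : n - (l + 1) ≤ n := Nat.sub_le _ _
    exact_mod_cast this
  have hmainR : (minLength n : ℝ) + (l + 1 + 2) * n ≤ (n : ℝ) ^ 2 + (l + 1 + 2) + (T + Z) +
      (Z + 1) * (T + 1) + (S.ext (n - (l + 1)) : ℝ) := by exact_mod_cast hmain
  have hext' : (S.ext (n - (l + 1)) : ℝ) ≤ 7 / 12 * n + Z := by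
    refine hext.trans ?_
    rw [← hZ]
    linarith
  nlinarith

/-- one star and no moving letter -/
def sys0 (B : ℕ) : Sys where
  B := B
  T := 1
  Z := 0
  a := fun _ => 0
  K := fun _ => 1
  M := fun _ => 1

/-- the bound `n² - 2 n + 5` -/
theorem bound0 (n : ℕ) (hn : 4 ≤ n) : (minLength n : ℝ) ≤ (n : ℝ) ^ 2 - 2 * n + 5 := by
  have hSn : (sys0 (n - 4)).n = n := by
    show (n - 4) + (0 + 1) * (1 + 1) + 1 + 1 + 0 = n
    omega
  have hok : (sys0 (n - 4)).Ok := by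
    constructor
    · intro r hr
      exact absurd hr (by show ¬ r < 0; omega)
    · intro r hr
      exact absurd hr (by show ¬ r < 0; omega)
  have hbl : (sys0 (n - 4)).Blocking 0 := by
    intro j _
    exact ⟨0, by show 0 < 1; omega, Nat.zero_le _⟩
  have h := Sys.minLength_le hok hbl (by rw [hSn]; omega)
  rw [hSn] at h
  have h1 : (sys0 (n - 4)).ext (n - 0) = 0 := by simp [Sys.ext, sys0]
  have h2 : (sys0 (n - 4)).Q = 2 := rfl
  have h3 : (sys0 (n - 4)).T = 1 := rfl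
  have h4 : (sys0 (n - 4)).Z = 0 := rfl
  rw [h1, h2, h3, h4] at h
  have h5 : (minLength n : ℝ) + (0 + 2) * n ≤ (n : ℝ) ^ 2 + (0 + 2) + (1 + 0) + 2 + 0 := by
    exact_mod_cast h
  linarith

/-- **Main theorem.** -/
theorem main_bound (n : ℕ) (hn : 4 ≤ n) :
    (minLength n : ℝ) ≤ (n : ℝ) ^ 2 - n * Real.logb 2 (Real.logb 2 n) + 2 * n := by
  have hn0 : (0 : ℝ) < n := by exact_mod_cast (by omega : 0 < n)
  have hn4 : (4 : ℝ) ≤ n := by exact_mod_cast hn
  have h12 : (1 : ℝ) < 2 := by norm_num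
  have hy2 : 2 ≤ Real.logb 2 n := by
    rw [Real.le_logb_iff_rpow_le h12 hn0]
    norm_num
    exact_mod_cast hn
  set y := Real.logb 2 n with hy
  have hy0 : 0 < y := by linarith
  by_cases h512 : n < 2 ^ 9
  · have hy9 : y < 9 := by
      rw [hy, Real.logb_lt_iff_lt_rpow h12 hn0]
      have : (n : ℝ) < ((2 ^ 9 : ℕ) : ℝ) := by exact_mod_cast h512
      norm_num at this ⊢
      exact this
    have h0 := bound0 n hn
    by_cases h10 : n < 10
    · have hy4 : y < 4 := by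
        rw [hy, Real.logb_lt_iff_lt_rpow h12 hn0]
        have : (n : ℝ) < ((10 : ℕ) : ℝ) := by exact_mod_cast h10
        norm_num at this ⊢
        linarith
      have h2 : Real.logb 2 y < 2 := by
        rw [Real.logb_lt_iff_lt_rpow h12 hy0]
        norm_num
        exact hy4
      nlinarith
    · have hn10 : (10 : ℝ) ≤ n := by exact_mod_cast (by omega : 10 ≤ n)
      have h2 : Real.logb 2 y < 7 / 2 := by
        rw [Real.logb_lt_iff_lt_rpow h12 hy0]
        refine lt_of_lt_of_le hy9 ?_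
        have h3 : (9 : ℝ) ^ (2 : ℝ) ≤ ((2 : ℝ) ^ (7 / 2 : ℝ)) ^ (2 : ℝ) := by
          rw [← Real.rpow_mul (by norm_num)]
          norm_num
        exact (Real.rpow_le_rpow_iff (by norm_num) (by positivity) (by norm_num)).1 h3
      nlinarith
  · -- choose the number of levels
    have hex : ∃ l, n < 2 ^ (9 * 2 ^ (l + 1)) := by
      refine ⟨n, ?_⟩
      calc n < 2 ^ n := Nat.lt_two_pow_self
        _ ≤ 2 ^ (9 * 2 ^ (n + 1)) := Nat.pow_le_pow_right (by norm_num) (by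
          have : n + 1 < 2 ^ (n + 1) := Nat.lt_two_pow_self
          omega)
    classical
    set l := Nat.find hex with hl
    have h1 : n < 2 ^ (9 * 2 ^ (l + 1)) := Nat.find_spec hex
    have h2 : 2 ^ (9 * 2 ^ l) ≤ n := by
      rcases Nat.eq_zero_or_pos l with h0 | h0
      · rw [h0]
        simpa using h512
      · have h3 := Nat.find_min hex (m := l - 1) (by omega)
        have h4 : l - 1 + 1 = l := by omega
        rw [h4] at h3
        exact Nat.le_of_not_lt h3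
    have h3 := bound l n h2
    have h5 : y < 9 * 2 ^ (l + 1) := by
      rw [hy, Real.logb_lt_iff_lt_rpow h12 hn0]
      have h6 : (n : ℝ) < ((2 ^ (9 * 2 ^ (l + 1)) : ℕ) : ℝ) := by exact_mod_cast h1
      rw [Nat.cast_pow] at h6
      have h7 : (2 : ℝ) ^ (((9 * 2 ^ (l + 1) : ℕ)) : ℝ) = (2 : ℝ) ^ (9 * 2 ^ (l + 1) : ℕ) :=
        Real.rpow_natCast _ _
      have h8 : (((9 * 2 ^ (l + 1) : ℕ)) : ℝ) = 9 * 2 ^ (l + 1) := by
        push_cast
        rfl
      rw [← h8, h7]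
      exact_mod_cast h6
    have h6 : Real.logb 2 y ≤ l + 13 / 3 := by
      have h7 : Real.logb 2 y ≤ Real.logb 2 (9 * 2 ^ (l + 1)) :=
        Real.logb_le_logb_of_le h12 hy0 h5.le
      have h8 : Real.logb 2 (9 * 2 ^ (l + 1)) = Real.logb 2 9 + (l + 1) := by
        rw [Real.logb_mul (by norm_num) (by positivity), Real.logb_pow,
          Real.logb_self_eq_one h12]
        push_cast
        ring
      have h9 : Real.logb 2 9 ≤ 10 / 3 := by
        rw [Real.logb_le_iff_le_rpow h12 (by norm_num)]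
        have h10 : (9 : ℝ) ^ (3 : ℝ) ≤ ((2 : ℝ) ^ (10 / 3 : ℝ)) ^ (3 : ℝ) := by
          rw [← Real.rpow_mul (by norm_num)]
          norm_num
        exact (Real.rpow_le_rpow_iff (by norm_num) (by positivity) (by norm_num)).1 h10
      linarith
    nlinarith

end Pool.Agent.H52.SP
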