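import Pool.Agent.H52.SP.Univ

/-!
# A tree of homes is blocking

Level `s` consists of `N s = K 0 ⋯ K (s - 1)` moving letters; letter `v` of level `s ≥ 1` jumps
inside its home, the stars `v * M s, …, (v + 1) * M s - 1`, and each of its `K s` jumps goes over
the home of one letter of level `s + 1` (over one star, if `s = L - 1`).  The letter of level `0`
jumps in `K 0` jumps over the homes of the `K 0` letters of level `1`.
-/

namespace Pool.Agent.H52.SP

open Finset

/-! ### Enumeration of a finset -/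

section Enum

variable {α : Type} [Inhabited α] [DecidableEq α] (N : Finset α)

/-- the `r`-th element -/
noncomputable def enum (r : ℕ) : α := if h : r < N.card then (N.equivFin.symm ⟨r, h⟩).val else default

/-- the number of an element -/
noncomputable def idx (x : α) : ℕ := if h : x ∈ N then (N.equivFin ⟨x, h⟩).val else 0

theorem enum_mem {r : ℕ} (h : r < N.card) : enum N r ∈ N := by
  unfold enum
  rw [dif_pos h]
  exact (N.equivFin.symm ⟨r, h⟩).2

theorem idx_enum {r : ℕ} (h : r < N.card) : idx N (enum N r) = r := by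
  unfold idx
  rw [dif_pos (enum_mem N h)]
  unfold enum
  simp [h]

theorem idx_lt {x : α} (h : x ∈ N) : idx N x < N.card := by
  unfold idx
  rw [dif_pos h]
  exact (N.equivFin ⟨x, h⟩).2

theorem enum_idx {x : α} (h : x ∈ N) : enum N (idx N x) = x := by
  have h1 := idx_lt N h
  unfold enum
  rw [dif_pos h1]
  unfold idx
  simp [h]

theorem sum_enum (F : α → ℕ) : ∑ r ∈ range N.card, F (enum N r) = ∑ x ∈ N, F x := by
  apply Finset.sum_bij (fun r _ => enum N r)
  · intro r hr
    exact enum_mem N (mem_range.1 hr)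
  · intro r hr r' hr' h
    have h1 := idx_enum N (mem_range.1 hr)
    have h2 := idx_enum N (mem_range.1 hr')
    rw [← h1, h, h2]
  · intro x hx
    exact ⟨idx N x, mem_range.2 (idx_lt N hx), enum_idx N hx⟩
  · intro r _
    rfl

end Enum

/-! ### The tree -/

namespace Tree

variable (K : ℕ → ℕ) (L : ℕ)

/-- number of letters of level `s` -/
def N (s : ℕ) : ℕ := ∏ t ∈ range s, K t

/-- number of stars in a home of level `s` -/
def M (s : ℕ) : ℕ := ∏ t ∈ Ico s L, K t

/-- the moving letters -/
def nodes : Finset (Σ _ : ℕ, ℕ) := (range L).sigma (fun s => range (N K s))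

/-- first breakpoint -/
def a (z : Σ _ : ℕ, ℕ) : ℕ := if z.1 = 0 then M K L 1 else z.2 * M K L z.1

/-- number of jumps -/
def K' (z : Σ _ : ℕ, ℕ) : ℕ := if z.1 = 0 then K 0 - 1 else K z.1

theorem M_succ {s : ℕ} (hs : s < L) : M K L s = K s * M K L (s + 1) := by
  unfold M
  rw [← Finset.prod_Ioo_mul_eq_prod_Ico hs]
  rw [mul_comm]
  rfl

theorem M_self : M K L L = 1 := by simp [M]

theorem N_succ (s : ℕ) : N K (s + 1) = N K s * K s := by
  unfold N
  rw [prod_range_succ]

theorem N_mul_M {s : ℕ} (hs : s ≤ L) : N K s * M K L s = N K L := by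
  unfold N M
  exact Finset.prod_range_mul_prod_Ico K hs

variable (j : (Σ _ : ℕ, ℕ) → ℕ)

/-- the chain of homes which starts with the home `r` of level `1`; `ch r s` has level `s + 1` -/
def ch (r : ℕ) : ℕ → ℕ
  | 0 => r
  | s + 1 => ch r s * K (s + 1) +
      (if j ⟨s + 1, ch r s⟩ < K (s + 1) then j ⟨s + 1, ch r s⟩ else 0)

variable {K L j}

theorem ch_succ_bounds (hK : ∀ s, 1 ≤ K s) (r s : ℕ) :
    ch K j r s * K (s + 1) ≤ ch K j r (s + 1) ∧
      ch K j r (s + 1) + 1 ≤ (ch K j r s + 1) * K (s + 1) := by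
  have h1 := hK (s + 1)
  have h2 : (ch K j r s + 1) * K (s + 1) = ch K j r s * K (s + 1) + K (s + 1) := by ring
  rw [h2]
  simp only [ch]
  split_ifs with h <;> omega

theorem ch_lt (hK : ∀ s, 1 ≤ K s) {r : ℕ} (hr : r < K 0) (s : ℕ) :
    ch K j r s < N K (s + 1) := by
  induction s with
  | zero => simpa [ch, N] using hr
  | succ s ih =>
    have h1 := (ch_succ_bounds (j := j) hK r s).2
    rw [N_succ]
    have h2 : (ch K j r s + 1) * K (s + 1) ≤ N K (s + 1) * K (s + 1) :=
      Nat.mul_le_mul_right _ ih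
    omega

theorem ch_home (hK : ∀ s, 1 ≤ K s) (r : ℕ) {s e : ℕ} (h : s + e + 1 = L) :
    ch K j r s * M K L (s + 1) ≤ ch K j r (L - 1) ∧
      ch K j r (L - 1) < (ch K j r s + 1) * M K L (s + 1) := by
  induction e generalizing s with
  | zero =>
    have h1 : s = L - 1 := by omega
    have h2 : s + 1 = L := by omega
    rw [h2, M_self, h1]
    omega
  | succ e ih =>
    obtain ⟨h1, h2⟩ := ih (s := s + 1) (by omega)
    obtain ⟨h3, h4⟩ := ch_succ_bounds (j := j) hK r s
    have h5 : M K L (s + 1) = K (s + 1) * M K L (s + 2) := M_succ K L (by omega)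
    constructor
    · refine le_trans ?_ h1
      rw [h5, ← mul_assoc]
      exact Nat.mul_le_mul_right _ h3
    · refine lt_of_lt_of_le h2 ?_
      rw [h5, ← mul_assoc]
      exact Nat.mul_le_mul_right _ h4

/-- different chains are disjoint -/
theorem ch_inj (hK : ∀ s, 1 ≤ K s) {r r' : ℕ} (s : ℕ) (h : ch K j r s = ch K j r' s) :
    r = r' := by
  induction s with
  | zero => exact h
  | succ s ih =>
    apply ih
    obtain ⟨h1, h2⟩ := ch_succ_bounds (j := j) hK r s
    obtain ⟨h3, h4⟩ := ch_succ_bounds (j := j) hK r' s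
    have hk := hK (s + 1)
    rw [h] at h1 h2
    rcases Nat.lt_trichotomy (ch K j r s) (ch K j r' s) with h5 | h5 | h5
    · have h6 : (ch K j r s + 1) * K (s + 1) ≤ ch K j r' s * K (s + 1) :=
        Nat.mul_le_mul_right _ h5
      omega
    · exact h5
    · have h6 : (ch K j r' s + 1) * K (s + 1) ≤ ch K j r s * K (s + 1) :=
        Nat.mul_le_mul_right _ h5
      omega

theorem blocking (hK : ∀ s, 1 ≤ K s) (hK0 : 3 ≤ K 0) (hL : 1 ≤ L) (j : (Σ _ : ℕ, ℕ) → ℕ)
    (hj : ∀ z ∈ nodes K L, j z ≤ K' K z) :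
    ∃ t < N K L, L ≤ ((nodes K L).filter
      (fun z => Cov (a K L z) (K' K z) (M K L (z.1 + 1)) (j z) t)).card := by
  classical
  set G := (nodes K L).filter (fun z => z.1 ≠ 0 ∧ j z = K z.1) with hG
  set C : ℕ → Finset (Σ _ : ℕ, ℕ) := fun r =>
    (range (L - 1)).image (fun s => (⟨s + 1, ch K j r s⟩ : Σ _ : ℕ, ℕ)) with hC
  have hCmem : ∀ r z, z ∈ C r ↔ ∃ s < L - 1, z = ⟨s + 1, ch K j r s⟩ := by
    intro r z
    simp only [hC, mem_image, mem_range]
    constructor
    · rintro ⟨s, hs, rfl⟩
      exact ⟨s, hs, rfl⟩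
    · rintro ⟨s, hs, rfl⟩
      exact ⟨s, hs, rfl⟩
  have hCcard : ∀ r, (C r).card = L - 1 := by
    intro r
    simp only [hC]
    rw [card_image_of_injective, card_range]
    intro s s' h
    have h1 := congrArg (fun z : Σ _ : ℕ, ℕ => z.1) h
    simp only at h1
    omega
  have hCsub : ∀ r, r < K 0 → C r ⊆ nodes K L := by
    intro r hr z hz
    obtain ⟨s, hs, rfl⟩ := (hCmem r z).1 hz
    rw [nodes, mem_sigma, mem_range, mem_range]
    exact ⟨by simp only; omega, ch_lt hK hr s⟩
  have hCdisj : ∀ r r', r ≠ r' → Disjoint (C r) (C r') := by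
    intro r r' hne
    rw [disjoint_left]
    intro z hz hz'
    obtain ⟨s, hs, rfl⟩ := (hCmem r z).1 hz
    obtain ⟨s', hs', h⟩ := (hCmem r' _).1 hz'
    have h1 : s + 1 = s' + 1 := congrArg (fun z : Σ _ : ℕ, ℕ => z.1) h
    have h2 : ch K j r s = ch K j r' s' := congrArg (fun z : Σ _ : ℕ, ℕ => z.2) h
    have h3 : s = s' := by omega
    subst h3
    exact hne (ch_inj hK s h2)
  -- the home chosen by the letter of level 0
  have hroot : (⟨0, 0⟩ : Σ _ : ℕ, ℕ) ∈ nodes K L := by
    rw [nodes, mem_sigma, mem_range, mem_range]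
    exact ⟨hL, by simp [N]⟩
  have hjroot : j ⟨0, 0⟩ ≤ K 0 - 1 := by
    have := hj _ hroot
    simpa [K'] using this
  -- covering of the end of a chain
  have hcovC : ∀ r, r < K 0 → ∀ z ∈ C r, z ∉ G →
      Cov (a K L z) (K' K z) (M K L (z.1 + 1)) (j z) (ch K j r (L - 1)) := by
    intro r hr z hz hzG
    have hzn := hCsub r hr hz
    obtain ⟨s, hs, rfl⟩ := (hCmem r z).1 hz
    have h0 : (s + 1 : ℕ) ≠ 0 := by omega
    have hjle := hj _ hzn
    simp only [K', if_neg h0] at hjle
    have hjlt : j ⟨s + 1, ch K j r s⟩ < K (s + 1) := by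
      rcases Nat.lt_or_ge (j ⟨s + 1, ch K j r s⟩) (K (s + 1)) with h | h
      · exact h
      · exfalso
        apply hzG
        rw [hG, mem_filter]
        exact ⟨hzn, h0, by simp only; omega⟩
    obtain ⟨h1, h2⟩ := ch_home (j := j) hK r (s := s + 1) (e := L - 2 - s) (L := L) (by omega)
    have h3 : ch K j r (s + 1) = ch K j r s * K (s + 1) + j ⟨s + 1, ch K j r s⟩ := by
      simp only [ch]
      rw [if_pos hjlt]
    have h4 : M K L (s + 1) = K (s + 1) * M K L (s + 1 + 1) := M_succ K L (by omega)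
    unfold Cov
    left
    simp only [a, K', if_neg h0]
    refine ⟨hjlt, ?_, ?_⟩
    · refine le_trans (le_of_eq ?_) h1
      rw [h3, h4]
      ring
    · refine lt_of_lt_of_le h2 (le_of_eq ?_)
      rw [h3, h4]
      ring
  have hcovG : ∀ r, r < K 0 → ∀ z ∈ G, z ∉ C r →
      Cov (a K L z) (K' K z) (M K L (z.1 + 1)) (j z) (ch K j r (L - 1)) := by
    intro r hr z hz hzC
    rw [hG, mem_filter] at hz
    obtain ⟨hzn, h0, hjz⟩ := hz
    rw [nodes, mem_sigma, mem_range, mem_range] at hzn
    obtain ⟨s, v⟩ := z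
    simp only at hzn h0 hjz
    obtain ⟨s, rfl⟩ : ∃ s', s = s' + 1 := ⟨s - 1, by omega⟩
    have hne : v ≠ ch K j r s := by
      intro h
      apply hzC
      rw [hCmem]
      exact ⟨s, by omega, by rw [h]⟩
    obtain ⟨h1, h2⟩ := ch_home (j := j) hK r (s := s) (e := L - 1 - s) (L := L) (by omega)
    have h4 : M K L (s + 1) = K (s + 1) * M K L (s + 1 + 1) := M_succ K L hzn.1
    unfold Cov
    right
    simp only [a, K', if_neg h0]
    refine ⟨hjz, ?_⟩
    rw [← h4]
    rcases Nat.lt_or_ge v (ch K j r s) with h5 | h5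
    · right
      have h6 : (v + 1) * M K L (s + 1) ≤ ch K j r s * M K L (s + 1) := Nat.mul_le_mul_right _ h5
      have h7 : (v + 1) * M K L (s + 1) = v * M K L (s + 1) + M K L (s + 1) := by ring
      omega
    · left
      have h6 : (ch K j r s + 1) * M K L (s + 1) ≤ v * M K L (s + 1) :=
        Nat.mul_le_mul_right _ (by omega)
      omega
  have hcovR : ∃ r < K 0, Cov (a K L ⟨0, 0⟩) (K' K ⟨0, 0⟩) (M K L (0 + 1)) (j ⟨0, 0⟩)
      (ch K j r (L - 1)) := by
    by_cases h : j ⟨0, 0⟩ < K 0 - 1
    · refine ⟨j ⟨0, 0⟩ + 1, by omega, ?_⟩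
      obtain ⟨h1, h2⟩ := ch_home (j := j) hK (j ⟨0, 0⟩ + 1) (s := 0) (e := L - 1) (L := L)
        (by omega)
      unfold Cov
      left
      simp only [a, K', if_true]
      simp only [ch] at h1 h2
      refine ⟨h, ?_, ?_⟩
      · refine le_trans (le_of_eq ?_) h1
        ring
      · refine lt_of_lt_of_le h2 (le_of_eq ?_)
        ring
    · refine ⟨0, by omega, ?_⟩
      obtain ⟨h1, h2⟩ := ch_home (j := j) hK 0 (s := 0) (e := L - 1) (L := L) (by omega)
      unfold Cov
      right
      simp only [a, K', if_true]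
      simp only [ch] at h1 h2
      refine ⟨by omega, Or.inl ?_⟩
      rw [zero_add, one_mul] at h2
      exact h2
  -- the final count
  have hmemF : ∀ r z, z ∈ nodes K L →
      Cov (a K L z) (K' K z) (M K L (z.1 + 1)) (j z) (ch K j r (L - 1)) →
      z ∈ (nodes K L).filter
        (fun z => Cov (a K L z) (K' K z) (M K L (z.1 + 1)) (j z) (ch K j r (L - 1))) := by
    intro r z h1 h2
    rw [mem_filter]
    exact ⟨h1, h2⟩
  have hGn : G ⊆ nodes K L := by rw [hG]; exact filter_subset _ _
  have hcount : ∀ r < K 0, (C r \ G).card + (G \ C r).card ≤ ((nodes K L).filter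
      (fun z => Cov (a K L z) (K' K z) (M K L (z.1 + 1)) (j z) (ch K j r (L - 1)))).card := by
    intro r hr
    rw [← card_union_of_disjoint]
    · apply card_le_card
      intro z hz
      rcases mem_union.1 hz with hz | hz
      · rw [mem_sdiff] at hz
        exact hmemF r z (hCsub r hr hz.1) (hcovC r hr z hz.1 hz.2)
      · rw [mem_sdiff] at hz
        exact hmemF r z (hGn hz.1) (hcovG r hr z hz.1 hz.2)
    · rw [disjoint_left]
      intro z hz hz'
      rw [mem_sdiff] at hz hz'
      exact hz.2 hz'.1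
  have hsplitC : ∀ r, (C r \ G).card + (C r ∩ G).card = L - 1 := by
    intro r
    rw [← hCcard r]
    exact card_sdiff_add_card_inter _ _
  have hsplitG : ∀ r, (G \ C r).card + (C r ∩ G).card = G.card := by
    intro r
    rw [inter_comm]
    exact card_sdiff_add_card_inter _ _
  have htl : ∀ r < K 0, ch K j r (L - 1) < N K L := by
    intro r hr
    have h1 := ch_lt (j := j) hK hr (L - 1)
    have h2 : L - 1 + 1 = L := by omega
    rwa [h2] at h1
  rcases Nat.eq_zero_or_pos G.card with hg | hg
  · -- nobody returns: follow the chain of the letter of level 0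
    have hGe : G = ∅ := card_eq_zero.1 hg
    obtain ⟨r, hr, hcov⟩ := hcovR
    refine ⟨ch K j r (L - 1), htl r hr, ?_⟩
    have h1 : (insert (⟨0, 0⟩ : Σ _ : ℕ, ℕ) (C r)) ⊆ (nodes K L).filter
        (fun z => Cov (a K L z) (K' K z) (M K L (z.1 + 1)) (j z) (ch K j r (L - 1))) := by
      intro z hz
      rcases mem_insert.1 hz with rfl | hz
      · exact hmemF r _ hroot hcov
      · exact hmemF r z (hCsub r hr hz) (hcovC r hr z hz (by rw [hGe]; simp))
    have h2 := card_le_card h1
    rw [card_insert_of_notMem, hCcard] at h2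
    · omega
    · intro h
      obtain ⟨s, _, hs⟩ := (hCmem r _).1 h
      have h3 : 0 = s + 1 := congrArg (fun z : Σ _ : ℕ, ℕ => z.1) hs
      omega
  · -- one of three chains contains less than half of the returning letters
    have h3 : ∃ r < 3, 2 * (C r ∩ G).card < G.card := by
      by_contra hcon
      push Not at hcon
      have e0 := hcon 0 (by omega)
      have e1 := hcon 1 (by omega)
      have e2 := hcon 2 (by omega)
      have d01 : Disjoint (C 0 ∩ G) (C 1 ∩ G) :=
        (hCdisj 0 1 (by omega)).mono inter_subset_left inter_subset_left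
      have d02 : Disjoint (C 0 ∩ G) (C 2 ∩ G) :=
        (hCdisj 0 2 (by omega)).mono inter_subset_left inter_subset_left
      have d12 : Disjoint (C 1 ∩ G) (C 2 ∩ G) :=
        (hCdisj 1 2 (by omega)).mono inter_subset_left inter_subset_left
      have h4 : ((C 0 ∩ G) ∪ (C 1 ∩ G) ∪ (C 2 ∩ G)).card ≤ G.card := by
        apply card_le_card
        intro z hz
        rcases mem_union.1 hz with hz | hz
        · rcases mem_union.1 hz with hz | hz
          · exact (mem_inter.1 hz).2
          · exact (mem_inter.1 hz).2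
        · exact (mem_inter.1 hz).2
      rw [card_union_of_disjoint (disjoint_union_left.2 ⟨d02, d12⟩),
        card_union_of_disjoint d01] at h4
      omega
    obtain ⟨r, hr3, hr⟩ := h3
    have hrK : r < K 0 := by omega
    refine ⟨ch K j r (L - 1), htl r hrK, ?_⟩
    have h4 := hcount r hrK
    have h5 := hsplitC r
    have h6 := hsplitG r
    omega

/-- the system of parameters -/
noncomputable def sys (K : ℕ → ℕ) (L B : ℕ) : Sys where
  B := B
  T := N K L
  Z := (nodes K L).card
  a := fun r => a K L (enum (nodes K L) r)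
  K := fun r => K' K (enum (nodes K L) r)
  M := fun r => M K L ((enum (nodes K L) r).1 + 1)

theorem sys_ok (hK : ∀ s, 1 ≤ K s) (hK0 : 2 ≤ K 0) (hL : 1 ≤ L) (B : ℕ) : (sys K L B).Ok := by
  constructor
  · intro r hr
    show 1 ≤ K' K (enum (nodes K L) r)
    unfold K'
    split_ifs with h
    · omega
    · exact hK _
  · intro r hr
    have hmem := enum_mem (nodes K L) hr
    show a K L (enum (nodes K L) r) + K' K (enum (nodes K L) r) *
      M K L ((enum (nodes K L) r).1 + 1) ≤ N K L
    set z := enum (nodes K L) r with hz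
    rw [nodes, mem_sigma, mem_range, mem_range] at hmem
    unfold a K'
    by_cases h : z.1 = 0
    · rw [if_pos h, if_pos h, h]
      have h1 : M K L 0 = K 0 * M K L (0 + 1) := M_succ K L hL
      have h2 := N_mul_M K L (Nat.zero_le L)
      have h3 : N K 0 = 1 := by simp [N]
      rw [h3, one_mul] at h2
      obtain ⟨k, hk⟩ := Nat.exists_eq_add_of_le hK0
      have h4 : M K L 1 + (K 0 - 1) * M K L (0 + 1) = K 0 * M K L (0 + 1) := by
        rw [hk]
        have : 2 + k - 1 = 1 + k := by omega
        rw [this]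
        ring
      omega
    · rw [if_neg h, if_neg h, ← M_succ K L hmem.1]
      have h1 : (z.2 + 1) * M K L z.1 ≤ N K z.1 * M K L z.1 := Nat.mul_le_mul_right _ hmem.2
      rw [N_mul_M K L (le_of_lt hmem.1)] at h1
      have h2 : (z.2 + 1) * M K L z.1 = z.2 * M K L z.1 + M K L z.1 := by ring
      omega

theorem sys_blocking (hK : ∀ s, 1 ≤ K s) (hK0 : 3 ≤ K 0) (hL : 1 ≤ L) (B : ℕ) :
    (sys K L B).Blocking L := by
  classical
  intro j hj
  have hj' : ∀ z ∈ nodes K L, j (idx (nodes K L) z) ≤ K' K z := by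
    intro z hz
    have h1 := hj _ (idx_lt (nodes K L) hz)
    have h2 : (sys K L B).K (idx (nodes K L) z) = K' K z := by
      show K' K (enum (nodes K L) (idx (nodes K L) z)) = K' K z
      rw [enum_idx _ hz]
    rwa [h2] at h1
  obtain ⟨t, ht, hcard⟩ := blocking hK hK0 hL (fun z => j (idx (nodes K L) z)) hj'
  refine ⟨t, ht, hcard.trans ?_⟩
  apply card_le_card_of_injOn (fun z => idx (nodes K L) z)
  · intro z hz
    have hz' := (mem_filter.1 (Finset.mem_coe.1 hz))
    refine Finset.mem_coe.2 (mem_filter.2 ⟨mem_range.2 (idx_lt _ hz'.1), ?_⟩)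
    have h1 := hz'.2
    show Cov (a K L (enum (nodes K L) (idx (nodes K L) z)))
      (K' K (enum (nodes K L) (idx (nodes K L) z)))
      (M K L ((enum (nodes K L) (idx (nodes K L) z)).1 + 1)) (j (idx (nodes K L) z)) t
    rw [enum_idx _ hz'.1]
    exact h1
  · intro z hz z' hz' h
    have hz1 := (mem_filter.1 (Finset.mem_coe.1 hz)).1
    have hz2 := (mem_filter.1 (Finset.mem_coe.1 hz')).1
    rw [← enum_idx (nodes K L) hz1, ← enum_idx (nodes K L) hz2]
    exact congrArg _ h

theorem card_nodes : (nodes K L).card = ∑ s ∈ range L, N K s := by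
  unfold nodes
  rw [card_sigma]
  simp

theorem sys_ext (B R : ℕ) : (sys K L B).ext R =
    ∑ s ∈ range L, N K s * ((R + (if s = 0 then K 0 - 1 else K s) - 1) /
      (if s = 0 then K 0 - 1 else K s)) := by
  classical
  have h1 : (sys K L B).ext R = ∑ z ∈ nodes K L, (R + K' K z - 1) / K' K z :=
    sum_enum (nodes K L) (fun z => (R + K' K z - 1) / K' K z)
  rw [h1]
  unfold nodes
  rw [sum_sigma]
  apply sum_congr rfl
  intro s _
  unfold K'
  simp

end Tree

end Pool.Agent.H52.SP
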