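import Pool.Agent.H52.SP.Main

/-!
# Universality and length of the words
-/

namespace Pool.Agent.H52.SP

open Finset

/-- the jump of type `j` of a moving letter with first breakpoint `a`, `K` jumps and step `M`
goes over the star `t` (`j = K`: the return, which goes over all stars outside of its range). -/
def Cov (a K M j t : ℕ) : Prop :=
  (j < K ∧ a + j * M ≤ t ∧ t < a + (j + 1) * M) ∨ (j = K ∧ (t < a ∨ a + K * M ≤ t))

instance (a K M j t : ℕ) : Decidable (Cov a K M j t) := by unfold Cov; infer_instance

namespace Sys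

variable {S : Sys}

/-- for every choice of one jump for each moving letter some star is jumped over `L` times -/
def Blocking (S : Sys) (L : ℕ) : Prop :=
  ∀ j : ℕ → ℕ, (∀ r < S.Z, j r ≤ S.K r) →
    ∃ t < S.T, L ≤ ((range S.Z).filter (fun r => Cov (S.a r) (S.K r) (S.M r) (j r) t)).card

/-- an arc which goes over the star `t` contains a lift of the star -/
theorem arc_cov (hS : S.Ok) {r j u w t : ℕ} (hr : r < S.Z) (ht : t < S.T)
    (harc : S.Arc r j u w) (hc : Cov (S.a r) (S.K r) (S.M r) j t) :
    ∃ k, u < k * S.p + S.lam t S.Z ∧ k * S.p + S.lam t S.Z < w := by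
  have hlt : ∀ b, b ≤ t → S.lam b r < S.lam t S.Z := by
    intro b hb
    unfold lam
    have := Nat.mul_le_mul_left (S.Z + 1) hb
    omega
  have hgt : ∀ b, t < b → S.lam t S.Z < S.lam b r := by
    intro b hb
    unfold lam
    have h1 := Nat.mul_le_mul_left (S.Z + 1) (Nat.succ_le_of_lt hb)
    have h2 : (S.Z + 1) * (t.succ) = (S.Z + 1) * t + (S.Z + 1) := by
      rw [Nat.succ_eq_add_one]; ring
    omega
  have hl := S.lam_lt (b := t) (r := S.Z) (by omega) le_rfl
  have hKM := S.lam_lt (b := S.a r + S.K r * S.M r) (r := r) (hS.end_le r hr) (by omega)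
  rcases harc with ⟨h1, k, h2, h3⟩ | ⟨h1, k, h2, h3⟩
  · rcases hc with ⟨_, h4, h5⟩ | ⟨h4, _⟩
    · exact ⟨k, by have := hlt _ h4; omega, by have := hgt _ h5; omega⟩
    · omega
  · rcases hc with ⟨h4, _⟩ | ⟨_, h4 | h4⟩
    · omega
    · refine ⟨k + 1, ?_, ?_⟩
      · have : (k + 1) * S.p = k * S.p + S.p := by ring
        omega
      · have := hgt _ h4; omega
    · refine ⟨k, ?_, ?_⟩
      · have := hlt _ h4; omega
      · have : (k + 1) * S.p = k * S.p + S.p := by ring
        omega

theorem descent (hS : S.Ok) {L : ℕ} (hL : S.Blocking L) {l : List (Fin S.n)} {d : ℕ}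
    {x j u w : ℕ → ℕ} (hrec : Rec S l d x j u w) (hall : ∀ v < S.n, In l v) :
    (L + 1) * S.p ≤ d + S.Q := by
  by_contra hcon
  have hcon : d + S.Q < (L + 1) * S.p := Nat.lt_of_not_le hcon
  have hn : S.n = S.m + S.T + S.Z := rfl
  have hp := S.p_pos
  have hst : ∀ t < S.T, In l (S.m + t) := fun t ht => hall _ (by omega)
  have hmv : ∀ r < S.Z, In l (S.m + S.T + r) := fun r hr => hall _ (by omega)
  obtain ⟨t, ht, hcard⟩ := hL j (fun r hr => (hrec.mov r hr (hmv r hr)).2.1)
  set C := (range S.Z).filter (fun r => Cov (S.a r) (S.K r) (S.M r) (j r) t) with hC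
  have hkL : ∀ k, k * S.p + S.lam t S.Z ≤ d → k < L := by
    intro k hk
    by_contra hc
    have h1 : L * S.p ≤ k * S.p := Nat.mul_le_mul_right _ (by omega)
    have h2 : (L + 1) * S.p = L * S.p + S.p := by ring
    have h3 := S.B_le_lam t S.Z
    have h4 : S.p = S.B + S.Q := rfl
    omega
  have hex : ∀ r, ∃ k, r ∈ C → u r < k * S.p + S.lam t S.Z ∧ k * S.p + S.lam t S.Z < w r := by
    intro r
    by_cases hr : r ∈ C
    · rw [hC, mem_filter, mem_range] at hr
      obtain ⟨k, hk⟩ := arc_cov hS hr.1 ht (hrec.mov r hr.1 (hmv r hr.1)).2.2 hr.2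
      exact ⟨k, fun _ => hk⟩
    · exact ⟨0, fun h => absurd h hr⟩
  choose κ hκ using hex
  have hCr : ∀ r ∈ C, r < S.Z := by
    intro r hr
    rw [hC, mem_filter, mem_range] at hr
    exact hr.1
  have hmaps : ∀ r ∈ C, κ r ∈ range L := by
    intro r hr
    have h1 := hκ r hr
    have h2 := (hrec.mov r (hCr r hr) (hmv r (hCr r hr))).1
    exact mem_range.2 (hkL _ (by omega))
  have hinj : ∀ r ∈ C, ∀ r' ∈ C, κ r = κ r' → r = r' := by
    intro r hr r' hr' he
    by_contra hne
    have h1 := hκ r hr
    have h2 := hκ r' hr'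
    rw [he] at h1
    rcases hrec.mm r (hCr r hr) r' (hCr r' hr') hne (hmv r (hCr r hr)) (hmv r' (hCr r' hr'))
      with h3 | h3 <;> omega
  have himg : C.image κ = range L := by
    apply eq_of_subset_of_card_le
    · intro k hk
      rw [mem_image] at hk
      obtain ⟨r, hr, rfl⟩ := hk
      exact hmaps r hr
    · rw [card_image_of_injOn (fun r hr r' hr' h => hinj r hr r' hr' h), card_range]
      exact hcard
  obtain ⟨h1, k, h2⟩ := hrec.star t ht (hst t ht)
  have h3 : k ∈ C.image κ := by
    rw [himg, mem_range]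
    exact hkL k (by omega)
  rw [mem_image] at h3
  obtain ⟨r, hr, hrk⟩ := h3
  have h4 := hκ r hr
  rw [hrk] at h4
  rcases hrec.sm t ht r (hCr r hr) (hst t ht) (hmv r (hCr r hr)) with h5 | h5 <;> omega

/-- number of columns used -/
def cols (S : Sys) (L : ℕ) : ℕ := S.p * (S.n - L - 1) + S.Q + 1

theorem universal (hS : S.Ok) {L : ℕ} (hL : S.Blocking L) (hn : L + 1 ≤ S.n) :
    Universal (word S.n S.code (2 * S.cols L)) := by
  intro π
  have hnd : (List.ofFn π).Nodup := List.nodup_ofFn.2 π.injective
  obtain ⟨X, d, x, j, u, w, hX, hd, hg, hrec⟩ := main hS (List.ofFn π) hnd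
  have hall : ∀ v < S.n, In (List.ofFn π) v := by
    intro v hv
    refine ⟨⟨v, hv⟩, ?_, rfl⟩
    rw [List.mem_ofFn]
    exact π.surjective _
  have hD := descent hS hL hrec hall
  rw [List.length_ofFn] at hd
  apply good_sublist hg
  unfold cols
  obtain ⟨k, hk⟩ := Nat.exists_eq_add_of_le hn
  have e1 : S.n - L - 1 = k := by omega
  have e2 : S.p * S.n = (L + 1) * S.p + S.p * k := by rw [hk]; ring
  rw [e1]
  omega

/-! ### The length -/

/-- number of additional occurrences of the moving letters in `R` rows -/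
def ext (S : Sys) (R : ℕ) : ℕ := ∑ r ∈ range S.Z, ((R + S.K r - 1) / S.K r)

theorem card_tokens (hS : S.Ok) {L : ℕ} (hn : L + 1 ≤ S.n) :
    ((range (S.cols L)).filter (fun X => S.code (2 * X) < S.n)).card ≤
      (S.n - L) * S.T + (S.n - L) * S.Z + S.ext (S.n - L) := by
  set R := S.n - L with hR
  have hp := S.p_pos
  set A : Finset ℕ := ((range R) ×ˢ (range S.T)).image
    (fun z => z.1 * S.p + (S.p - S.lam z.2 S.Z)) with hA
  set B : Finset ℕ := ((range R) ×ˢ (range S.Z)).image
    (fun z => z.1 * S.p + (S.p - S.lam (S.a z.2 + (z.1 % S.K z.2) * S.M z.2) z.2)) with hB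
  set C : Finset ℕ := (range S.Z).biUnion (fun r => (range ((R + S.K r - 1) / S.K r)).image
    (fun c => (c * S.K r) * S.p + (S.p - S.lam (S.a r + S.K r * S.M r) r))) with hC
  have hsub : ((range (S.cols L)).filter (fun X => S.code (2 * X) < S.n)) ⊆ A ∪ B ∪ C := by
    intro X hX
    rw [mem_filter, mem_range, code_even] at hX
    obtain ⟨hX1, hX2⟩ := hX
    have hX0 : X ≠ 0 := by
      intro h
      rw [h] at hX2
      simp [tok] at hX2
    unfold tok at hX2
    rw [if_neg hX0] at hX2
    by_cases hle : S.B + ((X - 1) % S.p + 1) ≤ S.p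
    · rw [if_pos hle] at hX2
      set i := (X - 1) / S.p with hi
      set q0 := (X - 1) % S.p with hq0
      have hdiv := Nat.div_add_mod (X - 1) S.p
      rw [← hi, ← hq0] at hdiv
      have hq0p : q0 < S.p := Nat.mod_lt _ hp
      have hXe : X = i * S.p + (q0 + 1) := by
        rw [Nat.mul_comm] at hdiv
        omega
      have hpBQ : S.p = S.B + S.Q := rfl
      have hiR : i < R := by
        by_contra hc
        have h1 : R * S.p ≤ i * S.p := Nat.mul_le_mul_right _ (by omega)
        have h2 : R * S.p = S.p * (S.n - L - 1) + S.p := by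
          have : R = (S.n - L - 1) + 1 := by omega
          rw [this]; ring
        unfold cols at hX1
        -- here `X ≥ R p + 1`, but `X ≤ p (R - 1) + Q`
        omega
      set o := S.p - (q0 + 1) - S.B with ho
      have hoQ : o < S.Q := by omega
      have hW : 0 < S.Z + 1 := by omega
      set b := o / (S.Z + 1) with hb
      set r := o % (S.Z + 1) with hr
      have hor : o = (S.Z + 1) * b + r := (Nat.div_add_mod o (S.Z + 1)).symm
      have hrZ : r ≤ S.Z := by
        have h7 : r < S.Z + 1 := Nat.mod_lt o hW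
        omega
      have hlam : S.lam b r = S.B + o := by
        unfold lam
        omega
      have hXe' : X = i * S.p + (S.p - S.lam b r) := by
        rw [hlam]
        omega
      unfold tokLoc at hX2
      rw [← hb, ← hr] at hX2
      rw [mem_union, mem_union]
      by_cases hrz : r = S.Z
      · rw [if_pos hrz] at hX2
        by_cases hbT : b < S.T
        · left; left
          rw [hA, mem_image]
          refine ⟨(i, b), mem_product.2 ⟨mem_range.2 hiR, mem_range.2 hbT⟩, ?_⟩
          simp only
          rw [hXe', hrz]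
        · rw [if_neg hbT] at hX2
          omega
      · rw [if_neg hrz] at hX2
        have hrZ' : r < S.Z := by omega
        by_cases hocc : S.Occ r i b
        · rcases hocc with h1 | ⟨h1, h2⟩
          · left; right
            rw [hB, mem_image]
            refine ⟨(i, r), mem_product.2 ⟨mem_range.2 hiR, mem_range.2 hrZ'⟩, ?_⟩
            simp only
            rw [hXe', h1]
          · right
            rw [hC, mem_biUnion]
            refine ⟨r, mem_range.2 hrZ', ?_⟩
            rw [mem_image]
            have hK := hS.K_pos r hrZ'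
            have h3 : i = S.K r * (i / S.K r) := by
              have := Nat.div_add_mod i (S.K r)
              omega
            refine ⟨i / S.K r, ?_, ?_⟩
            · rw [mem_range, Nat.lt_iff_add_one_le, Nat.le_div_iff_mul_le (by omega)]
              have h4 : (i / S.K r + 1) * S.K r = S.K r * (i / S.K r) + S.K r := by ring
              omega
            · have h4 : i / S.K r * S.K r = i := Nat.div_mul_cancel (Nat.dvd_of_mod_eq_zero h1)
              rw [h4, hXe', h2]
        · rw [if_neg hocc] at hX2
          omega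
    · rw [if_neg hle] at hX2
      omega
  have hcA : A.card ≤ R * S.T := by
    rw [hA]
    refine card_image_le.trans ?_
    rw [card_product, card_range, card_range]
  have hcB : B.card ≤ R * S.Z := by
    rw [hB]
    refine card_image_le.trans ?_
    rw [card_product, card_range, card_range]
  have hcC : C.card ≤ S.ext R := by
    rw [hC]
    refine card_biUnion_le.trans ?_
    unfold ext
    apply sum_le_sum
    intro r _
    refine card_image_le.trans ?_
    rw [card_range]
  have h1 := card_le_card hsub
  have h2 := card_union_le (A ∪ B) C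
  have h3 := card_union_le A B
  omega

/-- **The bound.** -/
theorem minLength_le (hS : S.Ok) {L : ℕ} (hL : S.Blocking L) (hn : L + 1 ≤ S.n) :
    minLength S.n + (L + 2) * S.n ≤
      S.n ^ 2 + (L + 2) + (S.T + S.Z) + S.Q + S.ext (S.n - L) := by
  have h1 := minLength_le_of (universal hS hL hn)
  have h2 := length_word_le S.n S.code (S.cols L)
  have h3 := card_tokens hS hn
  obtain ⟨k, hk⟩ := Nat.exists_eq_add_of_le hn
  have e1 : S.n - L - 1 = k := by omega
  have e2 : S.n - L = k + 1 := by omega
  have e3 : S.n = S.p + 1 + S.T + S.Z := rfl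
  have h4 : minLength S.n ≤ (S.p * k + S.Q + 1) + ((k + 1) * S.T + (k + 1) * S.Z +
      S.ext (S.n - L)) := by
    unfold cols at h2 h3 h1
    rw [e1] at h1 h2 h3
    rw [e2] at h3 ⊢
    omega
  have h5 : (S.p * k + S.Q + 1) + ((k + 1) * S.T + (k + 1) * S.Z) + (L + 2) * S.n =
      S.n ^ 2 + (L + 2) + (S.T + S.Z) + S.Q := by
    have e4 : S.p = S.n - 1 - S.T - S.Z := by omega
    have e5 : S.n = L + 1 + k := hk
    have e6 : S.p + (1 + S.T + S.Z) = L + 1 + k := by omega
    have e7 : S.p * k + (k + 1) * S.T + (k + 1) * S.Z = (L + k) * k + (S.T + S.Z) := by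
      have e8 : S.p + (S.T + S.Z) = L + k := by omega
      calc S.p * k + (k + 1) * S.T + (k + 1) * S.Z
          = (S.p + (S.T + S.Z)) * k + (S.T + S.Z) := by ring
        _ = _ := by rw [e8]
    have e9 : S.n ^ 2 = (L + 1 + k) ^ 2 := by rw [e5]
    rw [e9, e5]
    have e10 : (L + 1 + k) ^ 2 + (L + 2) = (L + k) * k + 1 + (L + 2) * (L + 1 + k) := by ring
    omega
  omega

end Sys

end Pool.Agent.H52.SP
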