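import Mathlib

/-!
# Words given by a code (after helper38's `ThreeN`)

Slots `0, 1, 2, …`: the odd slot `2 t + 1` carries the ordinary letter `t % m`, the even slot `2 X`
carries the letter `code (2 X)` when this number is `< n` and no letter otherwise.
-/

namespace Pool.Agent.H52.SP

open Finset

/-- `γ` is a universal supersequence over the alphabet `Fin n`: every permutation of the alphabet,
written as the list of its values, is a subsequence of `γ`. -/
def Universal {n : ℕ} (γ : List (Fin n)) : Prop :=
  ∀ π : Equiv.Perm (Fin n), (List.ofFn π).Sublist γ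

/-- The minimum length `f(n)` of a universal supersequence over an `n`-letter alphabet. -/
noncomputable def minLength (n : ℕ) : ℕ :=
  sInf {L | ∃ γ : List (Fin n), Universal γ ∧ γ.length = L}

/-- The word read off from the slots `0, 1, …, N - 1`. -/
def word (n : ℕ) (code : ℕ → ℕ) (N : ℕ) : List (Fin n) :=
  (List.range N).filterMap (fun s => if h : code s < n then some ⟨code s, h⟩ else none)

theorem word_succ (n : ℕ) (code : ℕ → ℕ) (N : ℕ) :
    word n code (N + 1) = word n code N ++
      (if h : code N < n then [(⟨code N, h⟩ : Fin n)] else []) := by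
  unfold word
  rw [List.range_succ, List.filterMap_append]
  congr 1
  by_cases h : code N < n
  · simp [h]
  · simp [h]

theorem word_mono (n : ℕ) (code : ℕ → ℕ) {a b : ℕ} (h : a ≤ b) :
    (word n code a).Sublist (word n code b) := by
  induction b, h using Nat.le_induction with
  | base => exact List.Sublist.refl _
  | succ b _ ih =>
    rw [word_succ]
    exact ih.trans (List.sublist_append_left _ _)

theorem step {n : ℕ} {code : ℕ → ℕ} {l : List (Fin n)} {pos s : ℕ} {x : Fin n}
    (h : l.Sublist (word n code pos)) (hs : pos ≤ s) (hx : code s = x.val) :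
    (l ++ [x]).Sublist (word n code (s + 1)) := by
  rw [word_succ]
  have h1 : code s < n := by rw [hx]; exact x.isLt
  rw [dif_pos h1]
  have h2 : (⟨code s, h1⟩ : Fin n) = x := Fin.ext hx
  rw [h2]
  exact List.Sublist.append (h.trans (word_mono n code hs)) (List.Sublist.refl _)

theorem exists_mod (m a y : ℕ) (hm : 0 < m) (hy : y < m) : ∃ t, a ≤ t ∧ t < a + m ∧ t % m = y := by
  refine ⟨a + (y + (m - a % m)) % m, Nat.le_add_right _ _,
    Nat.add_lt_add_left (Nat.mod_lt _ hm) _, ?_⟩
  rw [Nat.add_mod_mod]
  have h1 : a + (y + (m - a % m)) = y + m * (a / m + 1) := by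
    have h2 := Nat.div_add_mod a m
    have h3 : a % m < m := Nat.mod_lt _ hm
    have h4 : m * (a / m + 1) = m * (a / m) + m := by ring
    omega
  rw [h1, Nat.add_mul_mod_self_left, Nat.mod_eq_of_lt hy]

/-- `Good m n code l X`: the list `l` embeds into an initial segment of the word which ends before
the even slot `2 X`; if the segment ends immediately before this slot, then its last letter is an
ordinary letter and it is the last letter of `l`. -/
def Good (m n : ℕ) (code : ℕ → ℕ) (l : List (Fin n)) (X : ℕ) : Prop :=
  ∃ pos, l.Sublist (word n code pos) ∧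
    (pos + 1 ≤ 2 * X ∨
      ∃ t x, pos = 2 * t + 2 ∧ pos ≤ 2 * X ∧ l.getLast? = some x ∧ x.val = t % m)

theorem good_nil (m n : ℕ) (code : ℕ → ℕ) : Good m n code ([] : List (Fin n)) 1 :=
  ⟨0, by simp, Or.inl (by omega)⟩

theorem good_ordinary {m n : ℕ} {code : ℕ → ℕ} (hodd : ∀ t, code (2 * t + 1) = t % m)
    {l : List (Fin n)} {X : ℕ} {y : Fin n} (hm : 2 ≤ m)
    (h : Good m n code l X) (hy : y.val < m) (hyl : y ∉ l) :
    Good m n code (l ++ [y]) (X + (m - 1)) := by
  obtain ⟨pos, h1, h2⟩ := h
  rcases h2 with h2 | ⟨t, x, h3, h4, h5, h6⟩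
  · obtain ⟨t, ht1, ht2, ht3⟩ := exists_mod m (X - 1) y.val (by omega) hy
    exact ⟨2 * t + 1 + 1, step h1 (by omega) (by rw [hodd, ht3]), Or.inr ⟨t, y, by omega,
      by omega, by simp, ht3.symm⟩⟩
  · obtain ⟨t', ht1, ht2, ht3⟩ := exists_mod m (t + 1) y.val (by omega) hy
    have hne : t' ≠ t + m := by
      intro hh
      rw [hh, Nat.add_mod_right] at ht3
      have hxy : x = y := Fin.ext (by omega)
      apply hyl
      rw [← hxy]
      exact List.mem_of_getLast? h5
    exact ⟨2 * t' + 1 + 1, step h1 (by omega) (by rw [hodd, ht3]), Or.inr ⟨t', y, by omega,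
      by omega, by simp, ht3.symm⟩⟩

theorem good_special {m n : ℕ} {code : ℕ → ℕ} {l : List (Fin n)} {X Y : ℕ}
    {z : Fin n} (h : Good m n code l X) (hz : code (2 * Y) = z.val) (hle : X ≤ Y) :
    Good m n code (l ++ [z]) (Y + 1) := by
  obtain ⟨pos, h1, h2⟩ := h
  have hpos : pos ≤ 2 * Y := by
    rcases h2 with h2 | ⟨t, x, h3, h4, h5, h6⟩ <;> omega
  exact ⟨2 * Y + 1, step h1 hpos hz, Or.inl (by omega)⟩

theorem good_sublist {m n : ℕ} {code : ℕ → ℕ} {l : List (Fin n)} {X N : ℕ}
    (h : Good m n code l X) (hX : X ≤ N) : l.Sublist (word n code (2 * N)) := by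
  obtain ⟨pos, h1, h2⟩ := h
  have hpos : pos ≤ 2 * X := by
    rcases h2 with h2 | ⟨t, x, h3, h4, h5, h6⟩ <;> omega
  exact h1.trans (word_mono _ _ (by omega))

/-! ### The length of the word -/

theorem length_word (n : ℕ) (code : ℕ → ℕ) (N : ℕ) :
    (word n code N).length = ((Finset.range N).filter (fun s => code s < n)).card := by
  induction N with
  | zero => simp [word]
  | succ N ih =>
    rw [word_succ, List.length_append, ih, Finset.range_add_one, Finset.filter_insert]
    by_cases h : code N < n
    · rw [dif_pos h, if_pos h, Finset.card_insert_of_notMem (by simp)]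
      simp
    · rw [dif_neg h, if_neg h]
      simp

theorem card_slots (n : ℕ) (f : ℕ → ℕ) (K : ℕ) :
    ((Finset.range (2 * K)).filter (fun s => f s < n)).card ≤
      K + ((Finset.range K).filter (fun X => f (2 * X) < n)).card := by
  induction K with
  | zero => simp
  | succ K ih =>
    have e : 2 * (K + 1) = 2 * K + 1 + 1 := by ring
    rw [e, Finset.range_add_one, Finset.filter_insert, Finset.range_add_one,
      Finset.filter_insert, Finset.range_add_one, Finset.filter_insert]
    have h1 : ∀ (P : Prop) [Decidable P] (a : ℕ) (S : Finset ℕ),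
        (if P then insert a S else S).card ≤ S.card + 1 := by
      intro P _ a S
      by_cases hP : P
      · rw [if_pos hP]
        exact Finset.card_insert_le _ _
      · rw [if_neg hP]
        omega
    refine (h1 _ _ _).trans ?_
    by_cases h : f (2 * K) < n
    · rw [if_pos h, if_pos h]
      have h2 := Finset.card_insert_le (2 * K) ({s ∈ Finset.range (2 * K) | f s < n})
      rw [Finset.card_insert_of_notMem (by simp : K ∉ ({X ∈ Finset.range K | f (2 * X) < n}))]
      omega
    · rw [if_neg h, if_neg h]
      omega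

theorem length_word_le (n : ℕ) (code : ℕ → ℕ) (N : ℕ) :
    (word n code (2 * N)).length ≤
      N + ((Finset.range N).filter (fun X => code (2 * X) < n)).card := by
  rw [length_word]
  exact card_slots n code N

theorem minLength_le_of {n : ℕ} {γ : List (Fin n)} (h : Universal γ) :
    minLength n ≤ γ.length := Nat.sInf_le ⟨γ, h, rfl⟩

end Pool.Agent.H52.SP
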